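import Pool.Agent.BoltzM.Gap.Sphere
import Pool.Agent.BoltzM.Coll.Symm

/-!
The Gaussian probability measure, the three-variable probability measure and its symmetries,
and the averaging operator on polynomial functions.
-/

set_option autoImplicit false

open MeasureTheory Pool.Agent.BoltzM.BoltzC Filter Topology
open scoped RealInnerProductSpace ENNReal

noncomputable section

namespace Pool.Agent.BoltzM.Gap

variable [Dim]

open Coll (sph mu2 mu3 pv pw coll swp)

/-- Total mass of the Maxwellian. -/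
def Z : ℝ := ∫ v, sqM v ^ 2

lemma integrable_pow_sqM_sq (n : ℕ) : Integrable (fun v : E => (1 + ‖v‖) ^ n * sqM v ^ 2) := by
  have h : Integrable (fun v : E => Real.exp (n ^ 2) * sqMS v) := sqMS.integrable.const_mul _
  refine h.mono' ?_ (ae_of_all _ fun v => ?_)
  · have := continuous_sqM
    exact (by fun_prop : Continuous fun v : E => (1 + ‖v‖) ^ n * sqM v ^ 2).aestronglyMeasurable
  · have h1 := pow_mul_sqM_le n v
    have h2 := sqM_pos v
    rw [Real.norm_of_nonneg (by positivity), sqMS_apply, sq, ← mul_assoc]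
    gcongr

lemma integrable_sqM_sq : Integrable (fun v : E => sqM v ^ 2) := by
  simpa using integrable_pow_sqM_sq 0

lemma Z_pos : 0 < Z := by
  have := continuous_sqM
  exact integral_pos_of_integrable_nonneg_nonzero (by fun_prop) integrable_sqM_sq
    (fun v => sq_nonneg _) (x := 0) (pow_pos (sqM_pos 0) 2).ne'

/-- Density of the Gaussian probability measure. -/
def dens (v : E) : ℝ≥0∞ := ENNReal.ofReal (sqM v ^ 2 / Z)

lemma measurable_dens : Measurable dens := by
  have := continuous_sqM.measurable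
  unfold dens; fun_prop

lemma toReal_dens (v : E) : (dens v).toReal = sqM v ^ 2 / Z :=
  ENNReal.toReal_ofReal (div_nonneg (sq_nonneg _) Z_pos.le)

/-- The Gaussian probability measure. -/
def gam : Measure E := volume.withDensity dens

lemma integral_gam (f : E → ℝ) : ∫ v, f v ∂gam = Z⁻¹ * ∫ v, f v * sqM v ^ 2 := by
  rw [gam, integral_withDensity_eq_integral_toReal_smul measurable_dens
    (ae_of_all _ fun v => ENNReal.ofReal_lt_top), ← integral_const_mul]
  congr 1; funext v
  rw [toReal_dens, smul_eq_mul]; ring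

lemma integrable_gam {f : E → ℝ} : Integrable f gam ↔ Integrable (fun v => f v * sqM v ^ 2) := by
  rw [gam, integrable_withDensity_iff measurable_dens (ae_of_all _ fun v => ENNReal.ofReal_lt_top)]
  simp only [toReal_dens, div_eq_mul_inv, ← mul_assoc]
  exact integrable_mul_const_iff (inv_ne_zero Z_pos.ne').isUnit _

instance : IsProbabilityMeasure gam := by
  constructor
  rw [gam, withDensity_apply _ MeasurableSet.univ, Measure.restrict_univ]
  unfold dens
  rw [← ofReal_integral_eq_lintegral_ofReal (integrable_sqM_sq.div_const _)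
    (ae_of_all _ fun v => div_nonneg (sq_nonneg _) Z_pos.le), integral_div]
  change ENNReal.ofReal (Z / Z) = 1
  rw [div_self Z_pos.ne', ENNReal.ofReal_one]

lemma volume_ac_gam : (volume : Measure E) ≪ gam :=
  withDensity_absolutelyContinuous' measurable_dens.aemeasurable (ae_of_all _ fun v => by
    have := sqM_pos v
    have := Z_pos
    simp only [dens, ne_eq, ENNReal.ofReal_eq_zero, not_le]
    positivity)

instance : gam.IsOpenPosMeasure := volume_ac_gam.isOpenPosMeasure

lemma gam_le (s : Set E) : gam s ≤ ENNReal.ofReal Z⁻¹ * volume s := by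
  calc gam s ≤ gam (toMeasurable volume s) := measure_mono (subset_toMeasurable _ _)
    _ = ∫⁻ v in toMeasurable volume s, dens v := withDensity_apply _ (measurableSet_toMeasurable _ _)
    _ ≤ ∫⁻ v in toMeasurable volume s, ENNReal.ofReal Z⁻¹ := by
        refine lintegral_mono fun v => ENNReal.ofReal_le_ofReal ?_
        rw [div_eq_mul_inv]
        have h1 := sqM_le_one v
        have h2 := sqM_pos v
        have h3 : sqM v ^ 2 ≤ 1 := by nlinarith
        have h4 := inv_pos.2 Z_pos
        nlinarith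
    _ = _ := by rw [setLIntegral_const, measure_toMeasurable]

lemma integrable_pow_gam (n : ℕ) : Integrable (fun v : E => (1 + ‖v‖) ^ n) gam :=
  integrable_gam.2 (integrable_pow_sqM_sq n)

lemma memLp_PV {n : ℕ} {φ : E → ℝ} (h : φ ∈ PV n) : MemLp φ 2 gam := by
  have hc := PV_continuous φ h
  obtain ⟨C, hC, hb⟩ := PV_growth φ h
  rw [memLp_two_iff_integrable_sq hc.aestronglyMeasurable]
  refine ((integrable_pow_gam (2 * n)).const_mul (C ^ 2)).mono'
    (hc.pow 2).aestronglyMeasurable (ae_of_all _ fun v => ?_)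
  rw [Real.norm_of_nonneg (sq_nonneg _), ← sq_abs, pow_mul', ← mul_pow]
  gcongr
  exact hb v

/-- The uniform probability measure on the sphere. -/
def sb : Measure Sph := (ENNReal.ofReal Coll.cT)⁻¹ • sph

lemma four_pi_ne_zero : ENNReal.ofReal Coll.cT ≠ 0 := by
  have := Coll.cT_pos
  simp only [ne_eq, ENNReal.ofReal_eq_zero, not_le]
  positivity

instance : IsProbabilityMeasure sb := by
  constructor
  rw [sb, Measure.smul_apply, Coll.sph_univ, smul_eq_mul,
    ENNReal.inv_mul_cancel four_pi_ne_zero ENNReal.ofReal_ne_top]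

instance : sb.IsOpenPosMeasure := by
  have : sph.IsOpenPosMeasure := by unfold sph; infer_instance
  exact Measure.isOpenPosMeasure_smul _ (ENNReal.inv_ne_zero.2 ENNReal.ofReal_ne_top)

/-- The probability measure in the two velocities and the direction. -/
def nu : Measure (E × E × Sph) := gam.prod (gam.prod sb)

instance : IsProbabilityMeasure nu := by unfold nu; infer_instance

/-- Density of `nu`. -/
def rho (p : E × E × Sph) : ℝ≥0∞ :=
  ENNReal.ofReal ((sqM p.1 * sqM p.2.1) ^ 2 / (Z ^ 2 * Coll.cT))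

lemma measurable_rho : Measurable rho := by
  have := continuous_sqM.measurable
  unfold rho; fun_prop

lemma nu_eq : nu = mu3.withDensity rho := by
  have h1 : sb = sph.withDensity fun _ => (ENNReal.ofReal Coll.cT)⁻¹ := by
    rw [withDensity_const]; rfl
  rw [nu, gam, h1, prod_withDensity measurable_dens measurable_const,
    prod_withDensity measurable_dens
      (g := fun z : E × Sph => dens z.1 * (ENNReal.ofReal Coll.cT)⁻¹)
      ((measurable_dens.comp measurable_fst).mul measurable_const)]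
  congr 1
  funext p
  have hZ := Z_pos
  have hpi := Coll.cT_pos
  simp only [dens, rho]
  rw [← ENNReal.ofReal_inv_of_pos (by positivity), ← ENNReal.ofReal_mul (by positivity),
    ← ENNReal.ofReal_mul (by positivity)]
  congr 1
  field_simp

lemma mp_withDensity {X : Type} [MeasurableSpace X] {μ : Measure X} {T : X → X}
    (hT : MeasurePreserving T μ μ) {r : X → ℝ≥0∞} (hr : Measurable r) (h : ∀ x, r (T x) = r x) :
    MeasurePreserving T (μ.withDensity r) (μ.withDensity r) := by
  refine ⟨hT.measurable, ?_⟩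
  ext s hs
  rw [Measure.map_apply hT.measurable hs, withDensity_apply _ (hT.measurable hs),
    withDensity_apply _ hs, ← hT.setLIntegral_comp_preimage hs hr]
  simp only [h]

lemma mp_coll : MeasurePreserving coll nu nu := by
  rw [nu_eq]
  refine mp_withDensity Coll.measurePreserving_coll measurable_rho fun p => ?_
  have := Coll.sM_pv_mul p.1 p.2.1 p.2.2
  simp only [rho, coll]
  congr 3

lemma mp_swp : MeasurePreserving swp nu nu := by
  rw [nu_eq]
  refine mp_withDensity Coll.measurePreserving_swp measurable_rho fun p => ?_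
  simp only [rho, swp, mul_comm]

lemma mp_one : MeasurePreserving (fun p : E × E × Sph => p.1) nu gam := measurePreserving_fst

lemma mp_two : MeasurePreserving (fun p : E × E × Sph => p.2.1) nu gam :=
  measurePreserving_fst.comp (measurePreserving_snd (μ := gam) (ν := gam.prod sb))

lemma mp_three : MeasurePreserving (fun p : E × E × Sph => pv p.1 p.2.1 p.2.2) nu gam :=
  mp_one.comp mp_coll

lemma mp_four : MeasurePreserving (fun p : E × E × Sph => pw p.1 p.2.1 p.2.2) nu gam :=
  mp_two.comp mp_coll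

lemma integral_coll (F : E × E × Sph → ℝ) : ∫ p, F (coll p) ∂nu = ∫ p, F p ∂nu :=
  mp_coll.integral_comp Coll.collE.measurableEmbedding F

lemma integral_swp (F : E × E × Sph → ℝ) : ∫ p, F (swp p) ∂nu = ∫ p, F p ∂nu :=
  mp_swp.integral_comp Coll.swpE.measurableEmbedding F

/-- The averaging operator. -/
def Tf (φ : E → ℝ) (x : E) : ℝ :=
  ∫ q : E × Sph, (φ (pv x q.1 q.2) + φ (pw x q.1 q.2)) ∂(gam.prod sb)

/-- Its leading part. -/
def T1 (φ : E → ℝ) (x : E) : ℝ :=
  ∫ ω : Sph, (φ (x - ⟪x, (ω : E)⟫ • (ω : E)) + φ (⟪x, (ω : E)⟫ • (ω : E))) ∂sb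

/-- Projection onto a direction. -/
def par (ω : E) : E →L[ℝ] E := (innerSL ℝ ω).smulRight ω

lemma par_apply (ω x : E) : par ω x = ⟪x, ω⟫ • ω := by simp [par, real_inner_comm]

lemma pv_eq (x w ω : E) : pv x w ω = (ContinuousLinearMap.id ℝ E - par ω) x + ⟪w, ω⟫ • ω := by
  simp only [pv, sub_apply, ContinuousLinearMap.id_apply, par_apply, inner_sub_left, sub_smul]
  abel

lemma pw_eq (x w ω : E) : pw x w ω = par ω x + (w - ⟪w, ω⟫ • ω) := by
  simp only [pw, par_apply, inner_sub_left, sub_smul]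
  abel

lemma norm_pv_le (x w : E) (ω : Sph) : 1 + ‖pv x w ω‖ ≤ (1 + ‖x‖) * (1 + ‖w‖) := by
  have h := Coll.energy x w ω
  have h1 : ‖pv x w ω‖ ≤ ‖x‖ + ‖w‖ := by
    refine abs_le_of_sq_le_sq' ?_ (by positivity) |>.2
    nlinarith [sq_nonneg ‖pw x w ω‖, mul_nonneg (norm_nonneg x) (norm_nonneg w)]
  nlinarith [mul_nonneg (norm_nonneg x) (norm_nonneg w)]

lemma norm_pw_le (x w : E) (ω : Sph) : 1 + ‖pw x w ω‖ ≤ (1 + ‖x‖) * (1 + ‖w‖) := by
  rw [← Coll.pv_swap, mul_comm]
  exact norm_pv_le w x ω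

lemma integrable_pv {n : ℕ} {φ : E → ℝ} (h : φ ∈ PV n) (x : E) :
    Integrable (fun q : E × Sph => φ (pv x q.1 q.2)) (gam.prod sb) := by
  have hc := (PV_continuous φ h).measurable
  obtain ⟨C, hC, hb⟩ := PV_growth φ h
  refine (((integrable_pow_gam n).const_mul (C * (1 + ‖x‖) ^ n)).comp_fst sb).mono'
    (Measurable.aestronglyMeasurable (by fun_prop)) (ae_of_all _ fun q => ?_)
  refine (hb _).trans ?_
  rw [mul_assoc, ← mul_pow]
  gcongr
  exact norm_pv_le x q.1 q.2

lemma integrable_pw {n : ℕ} {φ : E → ℝ} (h : φ ∈ PV n) (x : E) :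
    Integrable (fun q : E × Sph => φ (pw x q.1 q.2)) (gam.prod sb) := by
  have hc := (PV_continuous φ h).measurable
  obtain ⟨C, hC, hb⟩ := PV_growth φ h
  refine (((integrable_pow_gam n).const_mul (C * (1 + ‖x‖) ^ n)).comp_fst sb).mono'
    (Measurable.aestronglyMeasurable (by fun_prop)) (ae_of_all _ fun q => ?_)
  refine (hb _).trans ?_
  rw [mul_assoc, ← mul_pow]
  gcongr
  exact norm_pw_le x q.1 q.2

lemma integrable_pvw {n : ℕ} {φ : E → ℝ} (h : φ ∈ PV n) (x : E) :
    Integrable (fun q : E × Sph => φ (pv x q.1 q.2) + φ (pw x q.1 q.2)) (gam.prod sb) :=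
  (integrable_pv h x).add (integrable_pw h x)

lemma Tf_mem {n : ℕ} {φ : E → ℝ} (h : φ ∈ PV n) : Tf φ ∈ PV n := by
  refine integral_mem (PV n) (gam.prod sb)
    (fun (q : E × Sph) x => φ (pv x q.1 q.2) + φ (pw x q.1 q.2)) (fun q => ?_)
    (fun x => integrable_pvw h x)
  simp only [pv_eq, pw_eq]
  exact Submodule.add_mem _ (comp_affine_mem _ _ φ h) (comp_affine_mem _ _ φ h)

lemma Tf_add {n : ℕ} {φ ψ : E → ℝ} (h : φ ∈ PV n) (h' : ψ ∈ PV n) :
    Tf (φ + ψ) = Tf φ + Tf ψ := by
  funext x
  simp only [Tf, Pi.add_apply]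
  rw [← integral_add (integrable_pvw h x) (integrable_pvw h' x)]
  congr 1; funext q
  ring

lemma Tf_smul (c : ℝ) (φ : E → ℝ) : Tf (c • φ) = c • Tf φ := by
  funext x
  simp only [Tf, Pi.smul_apply, smul_eq_mul, ← mul_add, integral_const_mul]

lemma Tf_mem_PL {n : ℕ} {φ : E → ℝ} (h : φ ∈ PL n) : Tf φ ∈ PL n := by
  cases n with
  | zero =>
    have : φ = 0 := (Submodule.mem_bot ℝ).1 h
    have h0 := Tf_smul 0 φ
    rw [zero_smul, zero_smul] at h0
    rw [this, h0]
    exact Submodule.zero_mem _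
  | succ n => exact Tf_mem h

lemma Tf_sub_T1_mem {n : ℕ} {φ : E → ℝ} (h : φ ∈ PV n) : Tf φ - T1 φ ∈ PL n := by
  have hc := PV_continuous φ h
  have hi : ∀ x : E, Integrable (fun q : E × Sph =>
      φ (x - ⟪x, (q.2 : E)⟫ • (q.2 : E)) + φ (⟪x, (q.2 : E)⟫ • (q.2 : E))) (gam.prod sb) :=
    fun x => (integrable_sph sb (f := fun ω : Sph =>
      φ (x - ⟪x, (ω : E)⟫ • (ω : E)) + φ (⟪x, (ω : E)⟫ • (ω : E))) (by fun_prop)).comp_snd gam
  have h1 := integral_mem (PL n) (gam.prod sb)
    (fun (q : E × Sph) x => (φ (pv x q.1 q.2) + φ (pw x q.1 q.2)) -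
      (φ (x - ⟪x, (q.2 : E)⟫ • (q.2 : E)) + φ (⟪x, (q.2 : E)⟫ • (q.2 : E)))) (fun q => ?_)
    (fun x => (integrable_pvw h x).sub (hi x))
  · convert h1 using 1
    funext x
    rw [integral_sub (integrable_pvw h x) (hi x),
      integral_fun_snd (fun ω : Sph =>
        φ (x - ⟪x, (ω : E)⟫ • (ω : E)) + φ (⟪x, (ω : E)⟫ • (ω : E)))]
    simp [Tf, T1]
  · have h2 := diff_mem (ContinuousLinearMap.id ℝ E - par q.2) (⟪q.1, (q.2 : E)⟫ • (q.2 : E)) φ h
    have h3 := diff_mem (par q.2) (q.1 - ⟪q.1, (q.2 : E)⟫ • (q.2 : E)) φ h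
    convert Submodule.add_mem _ h2 h3 using 1
    funext x
    simp only [pv_eq, pw_eq, Pi.add_apply, sub_apply, ContinuousLinearMap.id_apply, par_apply]
    ring

lemma homog_T1 {n : ℕ} {P : E → ℝ} (hH : Homog n P) : Homog n (T1 P) := by
  intro t x
  simp only [T1, ← integral_const_mul]
  congr 1; funext ω
  rw [inner_smul_left, mul_add, ← hH, ← hH]
  simp [smul_sub, smul_smul]

/-- The collision invariants. -/
def Inv : Submodule ℝ (E → ℝ) := PV 1 ⊔ Submodule.span ℝ {fun v : E => ‖v‖ ^ 2}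

lemma Inv_le : Inv ≤ PV 2 :=
  sup_le (PV_mono (by norm_num)) ((Submodule.span_singleton_le_iff_mem _ _).2 normSq_mem)

lemma eigen_bound : ∃ δ : ℝ, 0 < δ ∧ ∀ (N : ℕ) (μ : ℝ) (φ : E → ℝ), φ ∈ PV N → φ ∉ Inv →
    Tf φ = μ • φ → μ ≤ 1 - δ := by
  obtain ⟨δ, hδ0, hδ⟩ := exists_delta sb
  refine ⟨δ, hδ0, fun N μ => ?_⟩
  induction N with
  | zero =>
    intro φ h hI _
    exact absurd (Submodule.mem_sup_left (PV_mono (Nat.zero_le 1) h)) hI
  | succ n ih =>
    intro φ h hI hT
    obtain ⟨P, hP, hH, hr⟩ := exists_top φ h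
    by_cases hP0 : P = 0
    · rw [hP0, sub_zero] at hr
      exact ih φ hr hI hT
    have htop : μ • P - T1 P = 0 := by
      refine homog_eq_zero (n := n + 1) ?_ fun t x => ?_
      · have h1 : Tf φ = Tf P + Tf (φ - P) := by
          rw [← Tf_add hP (PL_le _ hr)]; congr 1; abel
        have h2 : μ • P - T1 P = (Tf P - T1 P) + Tf (φ - P) - μ • (φ - P) := by
          rw [smul_sub, ← hT, h1]; abel
        rw [h2]
        exact Submodule.sub_mem _ (Submodule.add_mem _ (Tf_sub_T1_mem hP) (Tf_mem_PL hr))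
          (Submodule.smul_mem _ _ hr)
      · simp only [Pi.sub_apply, Pi.smul_apply, smul_eq_mul, hH t x, homog_T1 hH t x]
        ring
    have hμ : ∀ x, μ * P x = T1 P x := fun x => by
      have := congrFun htop x
      simpa [sub_eq_zero] using this
    rcases Nat.lt_trichotomy n 1 with hn | hn | hn
    · obtain rfl : n = 0 := by omega
      exact absurd (Submodule.mem_sup_left h) hI
    · subst hn
      rcases top_two hδ (PV_continuous P hP) hH hμ with h1 | ⟨c, hc⟩
      · exact h1
      · exfalso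
        apply hI
        have : φ = (φ - P) + c • fun v : E => ‖v‖ ^ 2 := by
          funext v; simp [hc v]
        rw [this]
        exact Submodule.add_mem _ (Submodule.mem_sup_left hr) (Submodule.mem_sup_right
          (Submodule.smul_mem _ _ (Submodule.mem_span_singleton_self _)))
    · exact top_high hδ (by omega) (PV_continuous P hP) hH hP0 hμ

lemma Inv_repr {ψ : E → ℝ} (h : ψ ∈ Inv) :
    ∃ (c d : ℝ) (b : Ix → ℝ), ∀ v, ψ v = c + ∑ j, b j * v j + d * ‖v‖ ^ 2 := by
  obtain ⟨y, hy, z, hz, rfl⟩ := Submodule.mem_sup.1 h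
  obtain ⟨c, b, hb⟩ := PV_one_repr y hy
  obtain ⟨d, rfl⟩ := Submodule.mem_span_singleton.1 hz
  exact ⟨c, d, b, fun v => by simp [hb v]⟩

lemma Inv_coll {ψ : E → ℝ} (h : ψ ∈ Inv) (v w : E) (ω : Sph) :
    ψ (pv v w ω) + ψ (pw v w ω) = ψ v + ψ w := by
  obtain ⟨c, d, b, hb⟩ := Inv_repr h
  have h1 := Coll.energy v w ω
  have h2 : ∀ j, (pv v w ω) j + (pw v w ω) j = v j + w j := fun j => by
    have := congrArg (fun z : E => z j) (Coll.pv_add_pw v w ω)
    simpa using this
  have h3 : ∑ j, b j * (pv v w ω) j + ∑ j, b j * (pw v w ω) j =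
      ∑ j, b j * v j + ∑ j, b j * w j := by
    rw [← Finset.sum_add_distrib, ← Finset.sum_add_distrib]
    exact Finset.sum_congr rfl fun j _ => by rw [← mul_add, ← mul_add, h2 j]
  simp only [hb]
  linear_combination d * h1 + h3

lemma Tf_mem_Inv {ψ : E → ℝ} (h : ψ ∈ Inv) : Tf ψ ∈ Inv := by
  have hi : Integrable ψ gam := (memLp_PV (Inv_le h)).integrable (by norm_num)
  have : Tf ψ = ψ + fun _ => ∫ w, ψ w ∂gam := by
    funext x
    simp only [Tf, Inv_coll h, Pi.add_apply]
    rw [integral_add (integrable_const _) (hi.comp_fst sb), integral_fun_fst ψ]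
    simp
  rw [this]
  exact Submodule.add_mem _ h (Submodule.mem_sup_left (const_mem 1 _))

end Pool.Agent.BoltzM.Gap
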