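import Pool.Agent.BoltzM.Gap.PolyAlg

/-!
Eigenvalue bounds for the averaging operator on homogeneous functions.
-/

set_option autoImplicit false

open MeasureTheory Pool.Agent.BoltzM.BoltzC Filter Topology
open scoped RealInnerProductSpace

noncomputable section

namespace Pool.Agent.BoltzM

variable [Dim]

/-- The unit sphere. -/
abbrev Sph : Type := Metric.sphere (0 : E) 1

lemma Sph.norm_eq (x : Sph) : ‖(x : E)‖ = 1 := by simp

instance : Nonempty Sph := ⟨⟨ev 0, by simp [norm_ev]⟩⟩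

variable (σ : Measure Sph) [IsProbabilityMeasure σ]

lemma integrable_sph {f : Sph → ℝ} (hf : Continuous f) : Integrable f σ :=
  hf.integrable_of_hasCompactSupport (HasCompactSupport.of_compactSpace f)

lemma exists_delta [σ.IsOpenPosMeasure] :
    ∃ δ : ℝ, 0 < δ ∧ ∀ x y : Sph, δ ≤ ∫ ω : Sph, ⟪(x : E), (ω : E)⟫ ^ 2 * ⟪(y : E), (ω : E)⟫ ^ 2 ∂σ := by
  set F : Sph × Sph → ℝ := fun p =>
    ∫ ω : Sph, ⟪(p.1 : E), (ω : E)⟫ ^ 2 * ⟪(p.2 : E), (ω : E)⟫ ^ 2 ∂σ with hF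
  have hc : Continuous F := by
    have := continuous_parametric_integral_of_continuous (μ := σ)
      (f := fun (p : Sph × Sph) (ω : Sph) => ⟪(p.1 : E), (ω : E)⟫ ^ 2 * ⟪(p.2 : E), (ω : E)⟫ ^ 2)
      (by unfold Function.uncurry; fun_prop) isCompact_univ
    simpa using this
  obtain ⟨p, -, hp⟩ := isCompact_univ.exists_isMinOn Set.univ_nonempty hc.continuousOn
  refine ⟨F p, ?_, fun x y => hp (Set.mem_univ (x, y))⟩
  obtain ⟨x, y⟩ := p
  have key : ∀ z : E, ⟪(x : E), z⟫ ≠ 0 → ⟪(y : E), z⟫ ≠ 0 → 0 < F (x, y) := by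
    intro z h1 h2
    have hz : z ≠ 0 := by rintro rfl; simp at h1
    have hn : 0 < ‖z‖ := norm_pos_iff.2 hz
    refine Continuous.integral_pos_of_hasCompactSupport_nonneg_nonzero (by fun_prop)
      (HasCompactSupport.of_compactSpace _) (fun ω => by positivity)
      (x := ⟨‖z‖⁻¹ • z, by simp [norm_smul, hn.ne']⟩) ?_
    simp [inner_smul_right, h1, h2, hn.ne']
  have hx : ⟪(x : E), (x : E)⟫ = 1 := by rw [real_inner_self_eq_norm_sq, Sph.norm_eq]; norm_num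
  have hy : ⟪(y : E), (y : E)⟫ = 1 := by rw [real_inner_self_eq_norm_sq, Sph.norm_eq]; norm_num
  by_cases h : 0 ≤ ⟪(x : E), (y : E)⟫
  · refine key (x + y) ?_ ?_
    · rw [inner_add_right, hx]; linarith
    · rw [inner_add_right, hy, real_inner_comm]; linarith
  · refine key (x - y) ?_ ?_
    · rw [inner_sub_right, hx]; linarith
    · rw [inner_sub_right, hy, real_inner_comm]; linarith

lemma norm_sq_par (x : E) (ω : Sph) : ‖⟪x, (ω : E)⟫ • (ω : E)‖ ^ 2 = ⟪x, (ω : E)⟫ ^ 2 := by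
  rw [norm_smul, Sph.norm_eq, mul_one, Real.norm_eq_abs, sq_abs]

lemma norm_sq_perp (x : E) (ω : Sph) :
    ‖x - ⟪x, (ω : E)⟫ • (ω : E)‖ ^ 2 = ‖x‖ ^ 2 - ⟪x, (ω : E)⟫ ^ 2 := by
  rw [norm_sub_sq_real, norm_sq_par, inner_smul_right]
  ring

lemma exists_perp (x : Sph) : ∃ y : Sph, ⟪(x : E), (y : E)⟫ = 0 := by
  have h : Module.finrank ℝ (ℝ ∙ (x : E))ᗮ = dd - 1 := by
    have hx : (x : E) ≠ 0 := by
      intro h0
      have := Sph.norm_eq x
      rw [h0] at this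
      simp at this
    have : Fact (Module.finrank ℝ E = dd - 1 + 1) :=
      ⟨by rw [finrank_Ix]; have := two_le_dd; omega⟩
    exact Submodule.finrank_orthogonal_span_singleton hx
  have : Nontrivial (ℝ ∙ (x : E))ᗮ := Module.nontrivial_of_finrank_pos (R := ℝ)
    (by have := two_le_dd; omega)
  obtain ⟨z, hz⟩ := exists_ne (0 : (ℝ ∙ (x : E))ᗮ)
  have hz' : (z : E) ≠ 0 := fun h0 => hz (Subtype.ext h0)
  have hn : 0 < ‖(z : E)‖ := norm_pos_iff.2 hz'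
  refine ⟨⟨‖(z : E)‖⁻¹ • (z : E), by simp [norm_smul, hz]⟩, ?_⟩
  have := Submodule.mem_orthogonal_singleton_iff_inner_right.1 z.2
  simp [inner_smul_right, this]

lemma perp_sq_le {x y : Sph} (h : ⟪(x : E), (y : E)⟫ = 0) (ω : Sph) :
    ⟪(y : E), (ω : E)⟫ ^ 2 ≤ 1 - ⟪(x : E), (ω : E)⟫ ^ 2 := by
  have h1 := norm_sq_perp (ω : E) x
  have h2 := abs_real_inner_le_norm (y : E) ((ω : E) - ⟪(ω : E), (x : E)⟫ • (x : E))
  rw [inner_sub_right, inner_smul_right, real_inner_comm (x : E) y, h, mul_zero, sub_zero,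
    Sph.norm_eq, one_mul] at h2
  rw [Sph.norm_eq, real_inner_comm] at h1
  have h3 := pow_le_pow_left₀ (abs_nonneg _) h2 2
  rw [sq_abs, real_inner_comm (x : E) ω] at h3
  linarith

lemma eq_norm_smul (y : E) (hy : y ≠ 0) : ∃ u : Sph, y = ‖y‖ • (u : E) := by
  have hn : 0 < ‖y‖ := norm_pos_iff.2 hy
  exact ⟨⟨‖y‖⁻¹ • y, by simp [norm_smul, hn.ne']⟩, by simp [smul_smul, hn.ne']⟩

lemma Homog.zero {n : ℕ} (hn : n ≠ 0) {P : E → ℝ} (hH : Homog n P) : P 0 = 0 := by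
  simpa [hn] using hH 0 0

lemma pow_le_aux {r : ℝ} (h0 : 0 ≤ r) (h1 : r ≤ 1) {n : ℕ} (hn : 3 ≤ n) :
    r ^ n ≤ r ^ 2 * (1 + r ^ 2) / 2 := by
  have h2 : r ^ n ≤ r ^ 3 := pow_le_pow_of_le_one h0 h1 hn
  nlinarith [mul_nonneg (sq_nonneg r) (sq_nonneg (1 - r))]

variable {σ}

lemma top_high {δ : ℝ}
    (hδ : ∀ x y : Sph, δ ≤ ∫ ω : Sph, ⟪(x : E), (ω : E)⟫ ^ 2 * ⟪(y : E), (ω : E)⟫ ^ 2 ∂σ)
    {n : ℕ} (hn : 3 ≤ n) {P : E → ℝ} (hc : Continuous P) (hH : Homog n P) (hP : P ≠ 0) {μ : ℝ}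
    (hμ : ∀ x, μ * P x =
      ∫ ω : Sph, (P (x - ⟪x, (ω : E)⟫ • (ω : E)) + P (⟪x, (ω : E)⟫ • (ω : E))) ∂σ) :
    μ ≤ 1 - δ := by
  obtain ⟨x, -, hx⟩ := isCompact_univ.exists_isMaxOn (Set.univ_nonempty (α := Sph))
    (f := fun x : Sph => |P x|) (by fun_prop)
  set s := |P x| with hs
  have hb : ∀ y, |P y| ≤ s * ‖y‖ ^ n := by
    intro y
    by_cases hy : y = 0
    · rw [hy, hH.zero (by omega), abs_zero]; positivity
    · obtain ⟨u, hu⟩ := eq_norm_smul y hy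
      conv_lhs => rw [hu, hH, abs_mul, abs_of_nonneg (by positivity)]
      rw [mul_comm]
      gcongr
      exact hx (Set.mem_univ u)
  have hs0 : 0 < s := by
    by_contra h
    have h0 : s = 0 := le_antisymm (not_lt.1 h) (abs_nonneg _)
    apply hP
    funext y
    have := hb y
    rw [h0, zero_mul] at this
    exact abs_nonpos_iff.1 this
  obtain ⟨y, hy⟩ := exists_perp x
  have hpt : ∀ ω : Sph, |P (x - ⟪(x : E), (ω : E)⟫ • (ω : E)) + P (⟪(x : E), (ω : E)⟫ • (ω : E))|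
      ≤ s * (1 - ⟪(x : E), (ω : E)⟫ ^ 2 * ⟪(y : E), (ω : E)⟫ ^ 2) := by
    intro ω
    have h1 := norm_sq_perp (x : E) ω
    have h2 := norm_sq_par (x : E) ω
    rw [Sph.norm_eq] at h1
    have h3 := perp_sq_le hy ω
    set c := ⟪(x : E), (ω : E)⟫ with hc
    set a := ‖(x : E) - c • (ω : E)‖ with ha
    set b := ‖c • (ω : E)‖ with hb'
    have ha0 : 0 ≤ a := norm_nonneg _
    have hb0 : 0 ≤ b := norm_nonneg _
    have ha1 : a ≤ 1 := by nlinarith [sq_nonneg c]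
    have hb1 : b ≤ 1 := by nlinarith [sq_nonneg a]
    have h4 := pow_le_aux ha0 ha1 hn
    have h5 := pow_le_aux hb0 hb1 hn
    have h6 : a ^ n + b ^ n ≤ 1 - c ^ 2 * ⟪(y : E), (ω : E)⟫ ^ 2 := by
      rw [h1] at h4
      rw [h2] at h5
      nlinarith [mul_le_mul_of_nonneg_left h3 (sq_nonneg c)]
    calc _ ≤ |P (x - c • (ω : E))| + |P (c • (ω : E))| := abs_add_le _ _
      _ ≤ s * a ^ n + s * b ^ n := add_le_add (hb _) (hb _)
      _ = s * (a ^ n + b ^ n) := by ring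
      _ ≤ _ := by gcongr
  have h1 : |μ * P x| ≤ s * (1 - δ) := by
    rw [hμ]
    calc _ ≤ ∫ ω : Sph, |P (x - ⟪(x : E), (ω : E)⟫ • (ω : E)) +
            P (⟪(x : E), (ω : E)⟫ • (ω : E))| ∂σ := abs_integral_le_integral_abs
      _ ≤ ∫ ω : Sph, s * (1 - ⟪(x : E), (ω : E)⟫ ^ 2 * ⟪(y : E), (ω : E)⟫ ^ 2) ∂σ :=
          integral_mono (integrable_sph σ (by fun_prop)) (integrable_sph σ (by fun_prop)) hpt
      _ = s * (1 - ∫ ω : Sph, ⟪(x : E), (ω : E)⟫ ^ 2 * ⟪(y : E), (ω : E)⟫ ^ 2 ∂σ) := by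
          rw [integral_const_mul, integral_sub (integrable_const _)
            (integrable_sph σ (by fun_prop))]
          simp
      _ ≤ s * (1 - δ) := by
          gcongr
          exact hδ x y
  rw [abs_mul, ← hs, mul_comm] at h1
  exact (le_abs_self μ).trans (le_of_mul_le_mul_left h1 hs0)

lemma top_two {δ : ℝ}
    (hδ : ∀ x y : Sph, δ ≤ ∫ ω : Sph, ⟪(x : E), (ω : E)⟫ ^ 2 * ⟪(y : E), (ω : E)⟫ ^ 2 ∂σ)
    {P : E → ℝ} (hc : Continuous P) (hH : Homog 2 P) {μ : ℝ}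
    (hμ : ∀ x, μ * P x =
      ∫ ω : Sph, (P (x - ⟪x, (ω : E)⟫ • (ω : E)) + P (⟪x, (ω : E)⟫ • (ω : E))) ∂σ) :
    μ ≤ 1 - δ ∨ ∃ c : ℝ, ∀ x, P x = c * ‖x‖ ^ 2 := by
  obtain ⟨x, -, hx⟩ := isCompact_univ.exists_isMaxOn (Set.univ_nonempty (α := Sph))
    (f := fun x : Sph => P x) (by fun_prop)
  obtain ⟨y, -, hy⟩ := isCompact_univ.exists_isMinOn (Set.univ_nonempty (α := Sph))
    (f := fun x : Sph => P x) (by fun_prop)
  set hi := P x with hhi
  set lo := P y with hlo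
  have hx' : ∀ u : Sph, P u ≤ hi := fun u => hx (Set.mem_univ u)
  have hy' : ∀ u : Sph, lo ≤ P u := fun u => hy (Set.mem_univ u)
  have hb : ∀ z, lo * ‖z‖ ^ 2 ≤ P z ∧ P z ≤ hi * ‖z‖ ^ 2 := by
    intro z
    by_cases hz : z = 0
    · rw [hz, hH.zero (by omega)]; simp
    · obtain ⟨u, hu⟩ := eq_norm_smul z hz
      have : P z = ‖z‖ ^ 2 * P u := by conv_lhs => rw [hu, hH]
      rw [this]
      constructor
      · rw [mul_comm]; gcongr; exact hy' u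
      · rw [mul_comm hi]; gcongr; exact hx' u
  by_cases hlt : lo < hi
  · left
    have hpt : ∀ ω : Sph,
        (P (x - ⟪(x : E), (ω : E)⟫ • (ω : E)) + P (⟪(x : E), (ω : E)⟫ • (ω : E))) -
          (P (y - ⟪(y : E), (ω : E)⟫ • (ω : E)) + P (⟪(y : E), (ω : E)⟫ • (ω : E)))
        ≤ (hi - lo) * (1 - ⟪(x : E), (ω : E)⟫ ^ 2 * ⟪(y : E), (ω : E)⟫ ^ 2) := by
      intro ω
      have h1 := (hb (x - ⟪(x : E), (ω : E)⟫ • (ω : E))).2
      have h2 := (hb (y - ⟪(y : E), (ω : E)⟫ • (ω : E))).1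
      have h3 := sq_nonneg ‖(x : E) - ⟪(x : E), (ω : E)⟫ • (ω : E)‖
      have h4 := sq_nonneg ‖(y : E) - ⟪(y : E), (ω : E)⟫ • (ω : E)‖
      rw [norm_sq_perp, Sph.norm_eq] at h1 h2 h3 h4
      rw [hH, hH]
      set a := ⟪(x : E), (ω : E)⟫ ^ 2 with ha
      set b := ⟪(y : E), (ω : E)⟫ ^ 2 with hb'
      have ha0 : 0 ≤ a := sq_nonneg _
      have hb0 : 0 ≤ b := sq_nonneg _
      have h5 : 0 ≤ hi - P ω := sub_nonneg.2 (hx' ω)
      have h6 : 0 ≤ P ω - lo := sub_nonneg.2 (hy' ω)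
      have h7 : 0 ≤ a * (1 - b) * (hi - P ω) := mul_nonneg (mul_nonneg ha0 (by linarith)) h5
      have h8 : 0 ≤ b * (1 - a) * (P ω - lo) := mul_nonneg (mul_nonneg hb0 (by linarith)) h6
      nlinarith
    have h1 : μ * (hi - lo) ≤ (hi - lo) * (1 - δ) := by
      rw [mul_sub μ, hhi, hlo, hμ, hμ, ← integral_sub (integrable_sph σ (by fun_prop))
        (integrable_sph σ (by fun_prop)), ← hhi, ← hlo]
      calc _ ≤ ∫ ω : Sph, (hi - lo) * (1 - ⟪(x : E), (ω : E)⟫ ^ 2 * ⟪(y : E), (ω : E)⟫ ^ 2) ∂σ :=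
            integral_mono (integrable_sph σ (by fun_prop)) (integrable_sph σ (by fun_prop)) hpt
        _ = (hi - lo) * (1 - ∫ ω : Sph, ⟪(x : E), (ω : E)⟫ ^ 2 * ⟪(y : E), (ω : E)⟫ ^ 2 ∂σ) := by
            rw [integral_const_mul, integral_sub (integrable_const _)
              (integrable_sph σ (by fun_prop))]
            simp
        _ ≤ (hi - lo) * (1 - δ) := by
            have := hδ x y
            have h0 : 0 ≤ hi - lo := by linarith
            gcongr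
    rw [mul_comm μ] at h1
    exact le_of_mul_le_mul_left h1 (by linarith)
  · right
    refine ⟨hi, fun z => le_antisymm (hb z).2 (le_trans ?_ (hb z).1)⟩
    gcongr
    exact not_lt.1 hlt

end Pool.Agent.BoltzM
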